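import Mathlib
import Pool.Agent.TH314.ET.Lim
import Pool.Agent.TH314.ETH.Base

/-!
# Order `h`: moments of generating functions over all fractions with squarefree denominator
-/

set_option autoImplicit false

open Finset Filter Topology

namespace Pool.Agent.Q50.ETP

open Pool.Agent.Helper112 Pool.Agent.TH314.ET

variable {α : ℕ → ℂ}

/-- the local factor of order `h`: `1 + ((p - ν) / ν)^h / (p - 1)^(h - 1)` -/
noncomputable def loc (h p ν : ℕ) : ℝ := 1 + (((p : ℝ) - ν) / ν) ^ h / ((p : ℝ) - 1) ^ (h - 1)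

theorem one_le_loc (h p ν : ℕ) (hp : p.Prime) (hν : ν ≤ p) : 1 ≤ loc h p ν := by
  unfold loc
  have h1 : (0 : ℝ) ≤ (p : ℝ) - 1 := by
    have : (1 : ℝ) < p := by exact_mod_cast hp.one_lt
    linarith
  have h2 : (0 : ℝ) ≤ ((p : ℝ) - ν) / ν := by
    have : ((ν : ℕ) : ℝ) ≤ p := by exact_mod_cast hν
    exact div_nonneg (by linarith) (Nat.cast_nonneg _)
  have : 0 ≤ (((p : ℝ) - ν) / ν) ^ h / ((p : ℝ) - 1) ^ (h - 1) := by positivity
  linarith

/-- splitting of all fractions with denominator `p q` -/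
theorem split_all_pow (m : ℕ) {p q : ℕ} (hpq : p.Coprime q) (hp : 0 < p) (hq : 0 < q) (θ : ℝ) :
    ∑ b ∈ range q, ∑ c ∈ range p, ‖Sf α (c / p + (b / q + θ))‖ ^ m ≤
    ∑ a ∈ range (p * q), ‖Sf α (a / (p * q : ℕ) + θ)‖ ^ m := by
  classical
  have hpq0 : 0 < p * q := Nat.mul_pos hp hq
  have hp' : (p : ℝ) ≠ 0 := by positivity
  have hq' : (q : ℝ) ≠ 0 := by positivity
  rw [← Finset.sum_product']
  set S := (range q) ×ˢ (range p) with hS
  set f : ℕ × ℕ → ℕ := fun x => (x.1 * p + x.2 * q) % (p * q) with hf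
  have hval : ∀ x : ℕ × ℕ, ‖Sf α (x.2 / p + (x.1 / q + θ))‖ ^ m =
      ‖Sf α (((f x : ℕ) : ℝ) / (p * q : ℕ) + θ)‖ ^ m := by
    intro x
    have h1 : ((x.1 * p + x.2 * q : ℕ) : ℝ) =
        ((p * q : ℕ) : ℝ) * (((x.1 * p + x.2 * q) / (p * q) : ℕ) : ℝ) + ((f x : ℕ) : ℝ) := by
      rw [hf]
      exact_mod_cast (Nat.div_add_mod (x.1 * p + x.2 * q) (p * q)).symm
    have h2 : (x.2 : ℝ) / p + (x.1 / q + θ) =
        (((f x : ℕ) : ℝ) / (p * q : ℕ) + θ) + (((x.1 * p + x.2 * q) / (p * q) : ℕ) : ℝ) := by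
      push_cast at h1 ⊢
      field_simp
      nlinarith [h1]
    rw [h2, Sf_add_nat]
  have hinj : Set.InjOn f S := by
    rintro ⟨b, c⟩ hx ⟨b', c'⟩ hy hxy
    simp only [hS, Finset.coe_product, Set.mem_prod, Finset.mem_coe, mem_range] at hx hy
    have h1 : b * p + c * q ≡ b' * p + c' * q [MOD p * q] := hxy
    have h2 : b * p ≡ b' * p [MOD q] := by
      have h3 := h1.of_dvd (Dvd.intro_left p rfl : q ∣ p * q)
      have h4 : b * p + c * q ≡ b * p [MOD q] := by simp [Nat.ModEq]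
      have h5 : b' * p + c' * q ≡ b' * p [MOD q] := by simp [Nat.ModEq]
      exact h4.symm.trans (h3.trans h5)
    have h3 : b ≡ b' [MOD q] := Nat.ModEq.cancel_right_of_coprime (by
      rw [Nat.gcd_comm]; exact hpq) h2
    have h4 : c * q ≡ c' * q [MOD p] := by
      have h3 := h1.of_dvd (Dvd.intro q rfl : p ∣ p * q)
      have h4 : b * p + c * q ≡ c * q [MOD p] := by simp [Nat.ModEq]
      have h5 : b' * p + c' * q ≡ c' * q [MOD p] := by simp [Nat.ModEq]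
      exact h4.symm.trans (h3.trans h5)
    have h5 : c ≡ c' [MOD p] := Nat.ModEq.cancel_right_of_coprime hpq h4
    have h6 : b = b' := Nat.ModEq.eq_of_lt_of_lt h3 hx.1 hy.1
    have h7 : c = c' := Nat.ModEq.eq_of_lt_of_lt h5 hx.2 hy.2
    rw [h6, h7]
  have hmaps : S.image f ⊆ range (p * q) := by
    intro a ha
    obtain ⟨⟨b, c⟩, hx, rfl⟩ := Finset.mem_image.1 ha
    rw [mem_range]
    exact Nat.mod_lt _ hpq0
  calc ∑ x ∈ S, ‖Sf α (x.2 / p + (x.1 / q + θ))‖ ^ m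
      = ∑ x ∈ S, ‖Sf α (((f x : ℕ) : ℝ) / (p * q : ℕ) + θ)‖ ^ m :=
        Finset.sum_congr rfl fun x _ => hval x
    _ = ∑ a ∈ S.image f, ‖Sf α ((a : ℝ) / (p * q : ℕ) + θ)‖ ^ m := by
        rw [Finset.sum_image (f := fun a : ℕ => ‖Sf α ((a : ℝ) / (p * q : ℕ) + θ)‖ ^ m) hinj]
    _ ≤ _ := Finset.sum_le_sum_of_subset_of_nonneg hmaps fun _ _ _ => by positivity

/-- one prime -/
theorem mom_prime (hα : Summable fun n => ‖α n‖) (h : ℕ) (hh : 1 ≤ h) {p : ℕ} (hp : p.Prime)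
    (R : Finset ℕ) (hR : ∀ n, α n ≠ 0 → n % p ∈ R) (hR0 : 0 < R.card) (hRp : R.card ≤ p) (θ : ℝ) :
    loc h p R.card * ‖Sf α θ‖ ^ (2 * h) ≤ ∑ a ∈ range p, ‖Sf α (a / p + θ)‖ ^ (2 * h) := by
  obtain ⟨k, rfl⟩ : ∃ k, h = k + 1 := ⟨h - 1, by omega⟩
  have h1 := mont_prime hα hp R hR hR0 θ
  have h2 : (range p).filter (fun a => a.Coprime p) = (range p).erase 0 := by
    ext a
    simp only [mem_filter, mem_range, mem_erase]
    constructor
    · rintro ⟨h3, h4⟩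
      refine ⟨?_, h3⟩
      rintro rfl
      rw [Nat.coprime_zero_left] at h4
      exact hp.one_lt.ne' h4
    · rintro ⟨h3, h4⟩
      refine ⟨h4, ?_⟩
      rw [Nat.coprime_comm, hp.coprime_iff_not_dvd]
      intro h5
      exact absurd (Nat.le_of_dvd (by omega) h5) (by omega)
  rw [h2] at h1
  have h3 : ∑ a ∈ range p, ‖Sf α (a / p + θ)‖ ^ (2 * (k + 1)) =
      ‖Sf α θ‖ ^ (2 * (k + 1)) + ∑ a ∈ (range p).erase 0, ‖Sf α (a / p + θ)‖ ^ (2 * (k + 1)) := by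
    rw [← Finset.add_sum_erase _ _ (mem_range.2 hp.pos)]
    simp
  have hp1 : (0 : ℝ) < (p : ℝ) - 1 := by
    have : (1 : ℝ) < p := by exact_mod_cast hp.one_lt
    linarith
  have hg : 0 ≤ ((p : ℝ) - R.card) / R.card := by
    have : ((R.card : ℕ) : ℝ) ≤ p := by exact_mod_cast hRp
    exact div_nonneg (by linarith) (Nat.cast_nonneg _)
  have h6 : (((range p).erase 0).card : ℝ) = (p : ℝ) - 1 := by
    rw [Finset.card_erase_of_mem (mem_range.2 hp.pos), card_range,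
      Nat.cast_sub hp.one_lt.le, Nat.cast_one]
  have h4 : (∑ a ∈ (range p).erase 0, ‖Sf α (a / p + θ)‖ ^ 2) ^ (k + 1) / ((p : ℝ) - 1) ^ k ≤
      ∑ a ∈ (range p).erase 0, ‖Sf α (a / p + θ)‖ ^ (2 * (k + 1)) := by
    have h5 := pow_sum_div_card_le_sum_pow (s := (range p).erase 0)
      (f := fun a : ℕ => ‖Sf α (a / p + θ)‖ ^ 2) (fun _ _ => by positivity) k
    rw [h6] at h5
    refine h5.trans (le_of_eq ?_)
    exact Finset.sum_congr rfl fun a _ => by rw [← pow_mul]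
  have h5 : ((((p : ℝ) - R.card) / R.card) * ‖Sf α θ‖ ^ 2) ^ (k + 1) ≤
      (∑ a ∈ (range p).erase 0, ‖Sf α (a / p + θ)‖ ^ 2) ^ (k + 1) :=
    pow_le_pow_left₀ (by positivity) h1 _
  rw [h3]
  unfold loc
  rw [add_mul, one_mul, Nat.add_sub_cancel]
  have h7 : (((p : ℝ) - R.card) / R.card) ^ (k + 1) / ((p : ℝ) - 1) ^ k * ‖Sf α θ‖ ^ (2 * (k + 1)) ≤
      ∑ a ∈ (range p).erase 0, ‖Sf α (a / p + θ)‖ ^ (2 * (k + 1)) := by
    refine le_trans ?_ h4
    rw [div_mul_eq_mul_div]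
    apply div_le_div_of_nonneg_right _ (by positivity)
    calc (((p : ℝ) - R.card) / R.card) ^ (k + 1) * ‖Sf α θ‖ ^ (2 * (k + 1)) =
        ((((p : ℝ) - R.card) / R.card) * ‖Sf α θ‖ ^ 2) ^ (k + 1) := by rw [mul_pow, ← pow_mul]
      _ ≤ _ := h5
  linarith

/-- all fractions with denominator a product of distinct primes -/
theorem mom_prod (hα : Summable fun n => ‖α n‖) (h : ℕ) (hh : 1 ≤ h) (R : ℕ → Finset ℕ)
    (P : Finset ℕ) :
    (∀ p ∈ P, p.Prime ∧ (∀ n, α n ≠ 0 → n % p ∈ R p) ∧ 0 < (R p).card ∧ (R p).card ≤ p) →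
    ∀ θ : ℝ, (∏ p ∈ P, loc h p (R p).card) * ‖Sf α θ‖ ^ (2 * h) ≤
      ∑ a ∈ range (∏ p ∈ P, p), ‖Sf α (a / (∏ p ∈ P, p : ℕ) + θ)‖ ^ (2 * h) := by
  classical
  induction P using Finset.induction_on with
  | empty =>
    intro _ θ
    simp
  | insert p P hp ih =>
    intro hR θ
    have hRP : ∀ l ∈ P, l.Prime ∧ (∀ n, α n ≠ 0 → n % l ∈ R l) ∧ 0 < (R l).card ∧
        (R l).card ≤ l := fun l hl => hR l (mem_insert_of_mem hl)
    obtain ⟨hpp, hRp, hRp0, hRpp⟩ := hR p (mem_insert_self _ _)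
    set q := ∏ l ∈ P, l with hq
    have hq0 : 0 < q := Finset.prod_pos fun l hl => (hRP l hl).1.pos
    have hcop : p.Coprime q := by
      apply Nat.Coprime.prod_right
      intro l hl
      rw [Nat.coprime_primes hpp (hRP l hl).1]
      rintro rfl
      exact hp hl
    rw [Finset.prod_insert hp, Finset.prod_insert hp, mul_assoc]
    have hg : 0 ≤ loc h p (R p).card := zero_le_one.trans (one_le_loc h p _ hpp hRpp)
    refine le_trans ?_ (split_all_pow (2 * h) hcop hpp.pos hq0 θ)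
    refine (mul_le_mul_of_nonneg_left (ih hRP θ) hg).trans ?_
    rw [Finset.mul_sum]
    exact Finset.sum_le_sum fun b _ => mom_prime hα h hh hpp (R p) hRp hRp0 hRpp _

end Pool.Agent.Q50.ETP
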