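import Mathlib
import Pool.Agent.Q50.ETP.Mom

/-!
# Order `h`: the inequality for finite sets with Abel weights
-/

set_option autoImplicit false

open Finset Filter Topology

namespace Pool.Agent.Q50.ETP

open Pool.Agent.Helper112 Pool.Agent.TH314.ET Pool.Agent.TH314.ETH

/-- Abel weights of a finite set -/
noncomputable def wt (F : Finset ℕ) (ρ : ℝ) (n : ℕ) : ℂ := if n ∈ F then ((ρ ^ n : ℝ) : ℂ) else 0

/-- Abel weights of the representation function of a finite set -/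
noncomputable def rwt (F : Finset ℕ) (h : ℕ) (ρ : ℝ) (n : ℕ) : ℂ := ((RF F h n * ρ ^ n : ℝ) : ℂ)

theorem wt_summable (F : Finset ℕ) (ρ : ℝ) : Summable fun n => ‖wt F ρ n‖ := by
  apply summable_of_ne_finset_zero (s := F)
  intro n hn
  simp [wt, hn]

theorem Sf_wt (F : Finset ℕ) (ρ θ : ℝ) :
    Sf (wt F ρ) θ = ∑ a ∈ F, ((ρ ^ a : ℝ) : ℂ) * ee (a * θ) := by
  unfold Sf
  rw [tsum_eq_sum (s := F)]
  · refine Finset.sum_congr rfl fun a ha => ?_
    simp [wt, ha]
  · intro a ha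
    simp [wt, ha]

theorem RF_zero {F : Finset ℕ} {T : ℕ} (hF : F ⊆ range (T + 1)) (h n : ℕ) (hn : h * T < n) :
    RF F h n = 0 := by
  unfold RF
  rw [Finset.card_eq_zero, Finset.filter_eq_empty_iff]
  intro v hv hs
  rw [tup, Fintype.mem_piFinset] at hv
  have h1 : ∑ i, v i ≤ ∑ _i : Fin h, T :=
    Finset.sum_le_sum fun i _ => by have := mem_range.1 (hF (hv i)); omega
  rw [Finset.sum_const, Finset.card_univ, Fintype.card_fin, smul_eq_mul] at h1
  omega

theorem rwt_summable {F : Finset ℕ} {T : ℕ} (hF : F ⊆ range (T + 1)) (h : ℕ) (ρ : ℝ) :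
    Summable fun n => ‖rwt F h ρ n‖ := by
  apply summable_of_ne_finset_zero (s := range (h * T + 1))
  intro n hn
  rw [mem_range, not_lt] at hn
  simp [rwt, RF_zero hF h n (by omega)]

theorem Sf_rwt {F : Finset ℕ} {T : ℕ} (hF : F ⊆ range (T + 1)) (h : ℕ) (ρ θ : ℝ) :
    Sf (rwt F h ρ) θ = ∑ n ∈ range (h * T + 1), rwt F h ρ n * ee (n * θ) := by
  unfold Sf
  rw [tsum_eq_sum (s := range (h * T + 1))]
  intro n hn
  rw [mem_range, not_lt] at hn
  simp [rwt, RF_zero hF h n (by omega)]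

theorem Sf_wt_pow {F : Finset ℕ} {T : ℕ} (hF : F ⊆ range (T + 1)) (h : ℕ) (ρ θ : ℝ) :
    Sf (wt F ρ) θ ^ h = Sf (rwt F h ρ) θ := by
  classical
  rw [Sf_wt, Sf_rwt hF, Finset.sum_pow']
  have hmaps : ∀ v ∈ Fintype.piFinset (fun _ : Fin h => F), ∑ i, v i ∈ range (h * T + 1) := by
    intro v hv
    rw [Fintype.mem_piFinset] at hv
    have h1 : ∑ i, v i ≤ ∑ _i : Fin h, T :=
      Finset.sum_le_sum fun i _ => by have := mem_range.1 (hF (hv i)); omega
    rw [Finset.sum_const, Finset.card_univ, Fintype.card_fin, smul_eq_mul] at h1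
    rw [mem_range]
    omega
  rw [← Finset.sum_fiberwise_of_maps_to (t := range (h * T + 1)) (g := fun v : Fin h → ℕ => ∑ i, v i)
    hmaps]
  refine Finset.sum_congr rfl fun n _ => ?_
  have h1 : ∀ v ∈ (Fintype.piFinset (fun _ : Fin h => F)).filter (fun v => ∑ i, v i = n),
      ∏ i, (((ρ ^ (v i) : ℝ) : ℂ) * ee (v i * θ)) = ((ρ ^ n : ℝ) : ℂ) * ee (n * θ) := by
    intro v hv
    rw [mem_filter] at hv
    have h2 : ∀ s : Finset (Fin h), ∏ i ∈ s, (((ρ ^ (v i) : ℝ) : ℂ) * ee (v i * θ)) =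
        ((ρ ^ (∑ i ∈ s, v i) : ℝ) : ℂ) * ee ((∑ i ∈ s, (v i : ℝ)) * θ) := by
      intro s
      induction s using Finset.induction_on with
      | empty => simp [ls_ee_zero]
      | insert a s ha ih =>
        rw [Finset.prod_insert ha, Finset.sum_insert ha, Finset.sum_insert ha, ih, add_mul,
          ls_ee_add, pow_add]
        push_cast
        ring
    rw [h2, ← hv.2]
    push_cast
    rfl
  rw [Finset.sum_congr rfl h1, Finset.sum_const, nsmul_eq_mul]
  unfold rwt RF tup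
  push_cast
  ring

theorem Sf_wt_zero (F : Finset ℕ) (ρ : ℝ) : Sf (wt F ρ) 0 = ((∑ a ∈ F, ρ ^ a : ℝ) : ℂ) := by
  rw [Sf_wt]
  push_cast
  refine Finset.sum_congr rfl fun a _ => ?_
  rw [mul_zero, ls_ee_zero, mul_one]

/-- the class sum of the representation function -/
noncomputable def cl (F : Finset ℕ) (h T : ℕ) (ρ : ℝ) (M c : ℕ) : ℝ :=
  ∑ n ∈ (range (h * T + 1)).filter (fun n => n % M = c), (RF F h n : ℝ) * ρ ^ n

theorem part_rwt {F : Finset ℕ} {T : ℕ} (hF : F ⊆ range (T + 1)) (h : ℕ) (ρ : ℝ) (M c : ℕ) :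
    part (rwt F h ρ) M 0 c = (cl F h T ρ M c : ℂ) := by
  unfold part cl
  rw [tsum_eq_sum (s := range (h * T + 1))]
  · rw [Finset.sum_filter]
    push_cast
    refine Finset.sum_congr rfl fun n _ => ?_
    split_ifs
    · rw [mul_zero, ls_ee_zero, mul_one]
      unfold rwt
      push_cast
      ring
    · rfl
  · intro n hn
    rw [mem_range, not_lt] at hn
    simp [rwt, RF_zero hF h n (by omega)]

/-- the Cauchy–Schwarz inequality on a class -/
theorem cl_sq_le (F : Finset ℕ) (h T : ℕ) {ρ : ℝ} (h0 : 0 < ρ) (h1 : ρ < 1) {M : ℕ} (hM : 0 < M)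
    (c : ℕ) (hc : c < M) :
    cl F h T ρ M c ^ 2 ≤ 1 / (1 - ρ ^ M) *
      ∑ n ∈ (range (h * T + 1)).filter (fun n => n % M = c), (RF F h n : ℝ) ^ 2 * ρ ^ n := by
  set S := (range (h * T + 1)).filter (fun n => n % M = c) with hS
  have h2 : (∑ n ∈ S, (RF F h n : ℝ) * ρ ^ n) ^ 2 ≤
      (∑ n ∈ S, ρ ^ n) * ∑ n ∈ S, (RF F h n : ℝ) ^ 2 * ρ ^ n := by
    apply Finset.sum_sq_le_sum_mul_sum_of_sq_le_mul
    · intro n _; positivity
    · intro n _; positivity
    · intro n _; exact le_of_eq (by ring)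
  have h3 : ∑ n ∈ S, ρ ^ n ≤ 1 / (1 - ρ ^ M) := by
    refine le_trans ?_ (class_geom h0 h1 hM c hc)
    have hs : Summable fun n : ℕ => (if n % M = c then ρ ^ n else 0) := by
      refine Summable.of_nonneg_of_le (fun n => ?_) (fun n => ?_)
        (summable_geometric_of_lt_one h0.le h1)
      · split_ifs
        · positivity
        · exact le_refl _
      · split_ifs
        · exact le_refl _
        · positivity
    have h4 := hs.sum_le_tsum (range (h * T + 1)) (fun n _ => by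
      split_ifs
      · positivity
      · exact le_refl _)
    rw [← Finset.sum_filter] at h4
    exact h4
  unfold cl
  refine h2.trans (mul_le_mul_of_nonneg_right h3 ?_)
  exact Finset.sum_nonneg fun n _ => by positivity

/-- **The finite inequality.** -/
theorem fin_ineq {F : Finset ℕ} (hFne : F.Nonempty) {T : ℕ} (hF : F ⊆ range (T + 1)) (h : ℕ)
    (hh : 1 ≤ h) (R : ℕ → Finset ℕ) (P : Finset ℕ)
    (hR : ∀ p ∈ P, p.Prime ∧ (∀ n ∈ F, n % p ∈ R p) ∧ (R p).card ≤ p) {ρ : ℝ} (h0 : 0 < ρ)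
    (h1 : ρ < 1) :
    (∏ p ∈ P, loc h p (R p).card) * (∑ a ∈ F, ρ ^ a) ^ (2 * h) ≤
      ((∏ p ∈ P, p : ℕ) : ℝ) / (1 - ρ ^ (∏ p ∈ P, p)) *
        ∑ n ∈ range (h * T + 1), (RF F h n : ℝ) ^ 2 * ρ ^ n := by
  classical
  set M := ∏ p ∈ P, p with hM
  have hM0 : 0 < M := Finset.prod_pos fun p hp => (hR p hp).1.pos
  have hR1 : ∀ p ∈ P, p.Prime ∧ (∀ n, wt F ρ n ≠ 0 → n % p ∈ R p) ∧ 0 < (R p).card ∧
      (R p).card ≤ p := by
    intro p hp
    obtain ⟨h2, h3, h4⟩ := hR p hp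
    refine ⟨h2, ?_, ?_, h4⟩
    · intro n hn
      apply h3
      by_contra h5
      exact hn (by simp [wt, h5])
    · rw [Finset.card_pos]
      obtain ⟨a, ha⟩ := hFne
      exact ⟨_, h3 a ha⟩
  have h2 := mom_prod (wt_summable F ρ) h hh R P hR1 0
  rw [Sf_wt_zero, Complex.norm_real, Real.norm_eq_abs,
    abs_of_nonneg (Finset.sum_nonneg fun a _ => by positivity), ← hM] at h2
  refine h2.trans ?_
  have h4 : ∑ a ∈ range M, ‖Sf (wt F ρ) (a / M + 0)‖ ^ (2 * h) =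
      M * ∑ c ∈ range M, cl F h T ρ M c ^ 2 := by
    have h5 : ∀ a ∈ range M, ‖Sf (wt F ρ) (a / M + 0)‖ ^ (2 * h) =
        ‖∑ c ∈ range M, part (rwt F h ρ) M 0 c * ee (a * ((c : ℝ) / M))‖ ^ 2 := by
      intro a _
      rw [← Sf_expand (rwt_summable hF h ρ) M hM0 0 a, ← Sf_wt_pow hF, norm_pow, ← pow_mul,
        mul_comm h 2]
    rw [Finset.sum_congr rfl h5, parseval_range]
    congr 1
    refine Finset.sum_congr rfl fun c _ => ?_
    rw [part_rwt hF, Complex.norm_real, Real.norm_eq_abs, sq_abs]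
  rw [h4, div_mul_eq_mul_div, mul_div_assoc]
  refine mul_le_mul_of_nonneg_left ?_ (Nat.cast_nonneg _)
  have h5 : ∑ n ∈ range (h * T + 1), (RF F h n : ℝ) ^ 2 * ρ ^ n =
      ∑ c ∈ range M, ∑ n ∈ (range (h * T + 1)).filter (fun n => n % M = c),
        (RF F h n : ℝ) ^ 2 * ρ ^ n := by
    rw [Finset.sum_fiberwise_of_maps_to]
    intro n _
    exact mem_range.2 (Nat.mod_lt n hM0)
  rw [h5, div_eq_mul_one_div, mul_comm _ (1 / (1 - ρ ^ M)), Finset.mul_sum]
  exact Finset.sum_le_sum fun c hc => cl_sq_le F h T h0 h1 hM0 c (mem_range.1 hc)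

end Pool.Agent.Q50.ETP
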