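import Mathlib
import Pool.Agent.Q50.ETP.Fin

/-!
# Order `h`: the inequality for arbitrary sets
-/

set_option autoImplicit false

open Finset Filter Topology

namespace Pool.Agent.Q50.ETP

open Pool.Agent.Helper112 Pool.Agent.TH314.ET Pool.Agent.TH314.ETH

/-- the number of ordered representations of `n` as a sum of `h` elements of `A` -/
noncomputable def reps (A : Set ℕ) (h n : ℕ) : ℕ :=
  {v : Fin h → ℕ | (∀ i, v i ∈ A) ∧ ∑ i, v i = n}.ncard

/-- the Abel mean -/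
noncomputable def mean (f : ℕ → ℝ) (ρ : ℝ) : ℝ := (1 - ρ) * ∑' n : ℕ, f n * ρ ^ n

/-- the product of the local factors -/
noncomputable def factor (A : Set ℕ) (h : ℕ) (P : Finset ℕ) : ℝ :=
  ∏ p ∈ P, (1 + (((p : ℝ) - res A p) / res A p) ^ h / ((p : ℝ) - 1) ^ (h - 1))

open Classical in
/-- the elements of `A` up to `T` -/
noncomputable def FT (A : Set ℕ) (T : ℕ) : Finset ℕ := (range (T + 1)).filter (fun a => a ∈ A)

theorem mem_FT {A : Set ℕ} {T a : ℕ} : a ∈ FT A T ↔ a ≤ T ∧ a ∈ A := by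
  classical
  unfold FT
  rw [mem_filter, mem_range]
  constructor
  · rintro ⟨h1, h2⟩; exact ⟨by omega, h2⟩
  · rintro ⟨h1, h2⟩; exact ⟨by omega, h2⟩

theorem FT_sub (A : Set ℕ) (T : ℕ) : FT A T ⊆ range (T + 1) := by
  intro a ha
  rw [mem_range]
  have := (mem_FT.1 ha).1
  omega

theorem set_sub (A : Set ℕ) (h n : ℕ) : {v : Fin h → ℕ | (∀ i, v i ∈ A) ∧ ∑ i, v i = n} ⊆
    ((Fintype.piFinset (fun _ : Fin h => range (n + 1)) : Finset (Fin h → ℕ)) :
      Set (Fin h → ℕ)) := by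
  rintro v ⟨_, h2⟩
  rw [Finset.mem_coe, Fintype.mem_piFinset]
  intro i
  rw [mem_range, Nat.lt_succ_iff, ← h2]
  exact Finset.single_le_sum (f := v) (fun _ _ => Nat.zero_le _) (mem_univ i)

theorem set_finite (A : Set ℕ) (h n : ℕ) :
    {v : Fin h → ℕ | (∀ i, v i ∈ A) ∧ ∑ i, v i = n}.Finite :=
  (Finset.finite_toSet _).subset (set_sub A h n)

theorem reps_le (A : Set ℕ) (h n : ℕ) : reps A h n ≤ (n + 1) ^ h := by
  unfold reps
  refine (Set.ncard_le_ncard (set_sub A h n) (Finset.finite_toSet _)).trans ?_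
  rw [Set.ncard_coe_finset, Fintype.card_piFinset_const, card_range]

theorem RF_le_reps {A : Set ℕ} {F : Finset ℕ} (hF : ∀ a ∈ F, a ∈ A) (h n : ℕ) :
    RF F h n ≤ reps A h n := by
  unfold RF reps
  rw [← Set.ncard_coe_finset]
  apply Set.ncard_le_ncard _ (set_finite A h n)
  intro v hv
  rw [Finset.mem_coe, mem_filter, tup, Fintype.mem_piFinset] at hv
  exact ⟨fun i => hF _ (hv.1 i), hv.2⟩

theorem reps_le_RF {A : Set ℕ} {T n : ℕ} (hn : n ≤ T) (h : ℕ) :
    reps A h n ≤ RF (FT A T) h n := by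
  unfold RF reps
  rw [← Set.ncard_coe_finset]
  apply Set.ncard_le_ncard _ (Finset.finite_toSet _)
  rintro v ⟨h1, h2⟩
  rw [Finset.mem_coe, mem_filter, tup, Fintype.mem_piFinset]
  refine ⟨fun i => mem_FT.2 ⟨?_, h1 i⟩, h2⟩
  refine le_trans ?_ hn
  rw [← h2]
  exact Finset.single_le_sum (f := v) (fun _ _ => Nat.zero_le _) (mem_univ i)

/-- ordered versus unordered -/
theorem reps_le_rep (A : Set ℕ) (h n : ℕ) : reps A h n ≤ h ^ h * Pool.Agent.TH314.ETH.rep A h n :=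
  (reps_le_RF le_rfl h).trans (RF_le (fun _ ha => (mem_FT.1 ha).2) h n)

theorem rep_le_reps (A : Set ℕ) (h n : ℕ) : Pool.Agent.TH314.ETH.rep A h n ≤ reps A h n := by
  unfold Pool.Agent.TH314.ETH.rep reps
  have hsub : msets A h n ⊆ toM '' {v : Fin h → ℕ | (∀ i, v i ∈ A) ∧ ∑ i, v i = n} := by
    rintro s ⟨h1, h2, h3⟩
    obtain ⟨l, rfl⟩ : ∃ l : List ℕ, (l : Multiset ℕ) = s := ⟨s.toList, Multiset.coe_toList s⟩
    have hl : l.length = h := by simpa using h1
    subst hl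
    have key : toM (fun i : Fin l.length => l.get i) = (l : Multiset ℕ) := by
      unfold toM
      have : ((Finset.univ : Finset (Fin l.length)).val.map (fun i => l.get i)) =
          (((List.finRange l.length).map (fun i => l.get i) : List ℕ) : Multiset ℕ) := rfl
      rw [this]
      exact congrArg _ (List.map_get_finRange l)
    refine ⟨fun i => l.get i, ⟨fun i => ?_, ?_⟩, key⟩
    · exact h2 _ (Multiset.mem_coe.2 (List.get_mem l i))
    · rw [← toM_sum, key]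
      exact h3
  calc (msets A h n).ncard ≤ (toM '' {v : Fin h → ℕ | (∀ i, v i ∈ A) ∧ ∑ i, v i = n}).ncard :=
        Set.ncard_le_ncard hsub ((set_finite A h n).image _)
    _ ≤ _ := Set.ncard_image_le (set_finite A h n)

theorem summable_pow_reps (A : Set ℕ) (h k : ℕ) {ρ : ℝ} (h0 : 0 ≤ ρ) (h1 : ρ < 1) :
    Summable fun n => (reps A h n : ℝ) ^ k * ρ ^ n := by
  have h2 : Summable fun n : ℕ => ((n : ℝ) + 1) ^ (h * k) * ρ ^ n := by
    rcases h0.eq_or_lt with h3 | h3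
    · rw [← h3]
      apply summable_of_ne_finset_zero (s := {0})
      intro n hn
      have : n ≠ 0 := by simpa using hn
      simp [this]
    · have h4 := summable_pow_mul_geometric_of_norm_lt_one (h * k) (r := ρ) (by
        rw [Real.norm_eq_abs, abs_of_nonneg h0]; exact h1)
      have h5 := ((summable_nat_add_iff 1).2 h4).mul_right ρ⁻¹
      refine h5.congr fun n => ?_
      push_cast
      rw [pow_succ]
      field_simp
  refine Summable.of_nonneg_of_le (fun n => by positivity) (fun n => ?_) h2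
  apply mul_le_mul_of_nonneg_right _ (by positivity)
  rw [pow_mul]
  apply pow_le_pow_left₀ (Nat.cast_nonneg _)
  exact_mod_cast reps_le A h n

theorem summable_reps (A : Set ℕ) (h : ℕ) {ρ : ℝ} (h0 : 0 ≤ ρ) (h1 : ρ < 1) :
    Summable fun n => (reps A h n : ℝ) * ρ ^ n := by
  simpa using summable_pow_reps A h 1 h0 h1

/-- the power of the generating function of a finite set -/
theorem gen_pow {F : Finset ℕ} {T : ℕ} (hF : F ⊆ range (T + 1)) (h : ℕ) (ρ : ℝ) :
    (∑ a ∈ F, ρ ^ a) ^ h = ∑ n ∈ range (h * T + 1), (RF F h n : ℝ) * ρ ^ n := by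
  have h1 := Sf_wt_pow hF h ρ 0
  rw [Sf_wt_zero, Sf_rwt hF] at h1
  have h2 : ∀ n ∈ range (h * T + 1), rwt F h ρ n * ee ((n : ℝ) * 0) =
      (((RF F h n : ℝ) * ρ ^ n : ℝ) : ℂ) := by
    intro n _
    rw [mul_zero, ls_ee_zero, mul_one]
    rfl
  rw [Finset.sum_congr rfl h2] at h1
  exact_mod_cast h1

theorem gen_le (A : Set ℕ) (T h : ℕ) {ρ : ℝ} (h0 : 0 ≤ ρ) (h1 : ρ < 1) :
    (∑ a ∈ FT A T, ρ ^ a) ^ h ≤ ∑' n : ℕ, (reps A h n : ℝ) * ρ ^ n := by
  rw [gen_pow (FT_sub A T)]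
  refine le_trans (Finset.sum_le_sum (g := fun n => (reps A h n : ℝ) * ρ ^ n) fun n _ => ?_)
    ((summable_reps A h h0 h1).sum_le_tsum _ fun n _ => by positivity)
  apply mul_le_mul_of_nonneg_right _ (by positivity)
  exact_mod_cast RF_le_reps (fun _ ha => (mem_FT.1 ha).2) h n

theorem le_gen (A : Set ℕ) (T h : ℕ) (hh : 1 ≤ h) {ρ : ℝ} (h0 : 0 ≤ ρ) :
    ∑ n ∈ range (T + 1), (reps A h n : ℝ) * ρ ^ n ≤ (∑ a ∈ FT A T, ρ ^ a) ^ h := by
  rw [gen_pow (FT_sub A T)]
  refine le_trans (Finset.sum_le_sum (g := fun n => (RF (FT A T) h n : ℝ) * ρ ^ n) fun n hn => ?_)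
    (Finset.sum_le_sum_of_subset_of_nonneg ?_ fun n _ _ => by positivity)
  · apply mul_le_mul_of_nonneg_right _ (by positivity)
    have : n ≤ T := by rw [mem_range] at hn; omega
    exact_mod_cast reps_le_RF this h
  · intro n hn
    rw [mem_range] at hn ⊢
    nlinarith

theorem res_le (A : Set ℕ) {p : ℕ} (hp : 0 < p) : res A p ≤ p := by
  have h1 : (fun a => a % p) '' A ⊆ ((range p : Finset ℕ) : Set ℕ) := by
    rintro _ ⟨a, _, rfl⟩
    rw [Finset.mem_coe, mem_range]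
    exact Nat.mod_lt a hp
  unfold res
  refine (Set.ncard_le_ncard h1 (Finset.finite_toSet _)).trans ?_
  rw [Set.ncard_coe_finset, card_range]

/-- the local term -/
noncomputable def term (A : Set ℕ) (h p : ℕ) : ℝ :=
  (((p : ℝ) - res A p) / res A p) ^ h / ((p : ℝ) - 1) ^ (h - 1)

theorem term_nonneg (A : Set ℕ) (h : ℕ) {p : ℕ} (hp : p.Prime) : 0 ≤ term A h p := by
  unfold term
  have h1 : (0 : ℝ) ≤ (p : ℝ) - 1 := by
    have : (1 : ℝ) < p := by exact_mod_cast hp.one_lt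
    linarith
  have h2 : (0 : ℝ) ≤ ((p : ℝ) - res A p) / res A p := by
    have : ((res A p : ℕ) : ℝ) ≤ p := by exact_mod_cast res_le A hp.pos
    exact div_nonneg (by linarith) (Nat.cast_nonneg _)
  positivity

theorem factor_eq (A : Set ℕ) (h : ℕ) (P : Finset ℕ) : factor A h P = ∏ p ∈ P, (1 + term A h p) :=
  rfl

theorem factor_ge (A : Set ℕ) (h : ℕ) (P : Finset ℕ) (hP : ∀ p ∈ P, p.Prime) :
    1 + ∑ p ∈ P, term A h p ≤ factor A h P := by
  classical
  rw [factor_eq]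
  induction P using Finset.induction_on with
  | empty => simp
  | insert p P hp ih =>
    have hPP : ∀ q ∈ P, q.Prime := fun q hq => hP q (mem_insert_of_mem hq)
    rw [Finset.sum_insert hp, Finset.prod_insert hp]
    have h1 := ih hPP
    have h2 := term_nonneg A h (hP p (mem_insert_self _ _))
    have h3 : 0 ≤ ∑ p ∈ P, term A h p := Finset.sum_nonneg fun q hq => term_nonneg A h (hPP q hq)
    nlinarith

theorem factor_pos (A : Set ℕ) (h : ℕ) (P : Finset ℕ) (hP : ∀ p ∈ P, p.Prime) :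
    0 < factor A h P := by
  have h1 := factor_ge A h P hP
  have h3 : 0 ≤ ∑ p ∈ P, term A h p := Finset.sum_nonneg fun q hq => term_nonneg A h (hP q hq)
  linarith

/-- **The inequality for arbitrary sets.** -/
theorem main_sum (A : Set ℕ) (h : ℕ) (hh : 1 ≤ h) (P : Finset ℕ) (hP : ∀ p ∈ P, p.Prime) {ρ : ℝ}
    (h0 : 0 < ρ) (h1 : ρ < 1) :
    factor A h P * (∑' n : ℕ, (reps A h n : ℝ) * ρ ^ n) ^ 2 ≤
      ((∏ p ∈ P, p : ℕ) : ℝ) / (1 - ρ ^ (∏ p ∈ P, p)) * ∑' n : ℕ, (reps A h n : ℝ) ^ 2 * ρ ^ n := by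
  classical
  set M := ∏ p ∈ P, p with hM
  have hM0 : 0 < M := Finset.prod_pos fun p hp => (hP p hp).pos
  have hρM : ρ ^ M < 1 := pow_lt_one₀ h0.le h1 hM0.ne'
  have hcoef : 0 ≤ (M : ℝ) / (1 - ρ ^ M) := div_nonneg (Nat.cast_nonneg _) (by linarith)
  have hsq := summable_pow_reps A h 2 h0.le h1
  have hR0 : 0 ≤ ∑' n : ℕ, (reps A h n : ℝ) ^ 2 * ρ ^ n := tsum_nonneg fun n => by positivity
  rcases A.eq_empty_or_nonempty with hA | hA
  · have : ∀ n, reps A h n = 0 := by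
      intro n
      unfold reps
      rw [Set.ncard_eq_zero (set_finite A h n), Set.eq_empty_iff_forall_notMem]
      rintro v ⟨h2, _⟩
      have := h2 ⟨0, by omega⟩
      rw [hA] at this
      exact this
    simp [this]
  obtain ⟨a₀, ha₀⟩ := hA
  have hfac := factor_pos A h P hP
  set R : ℕ → Finset ℕ := fun p => if hp : 0 < p then (res_finite A hp).toFinset else ∅ with hR
  have hRc : ∀ p ∈ P, (R p).card = res A p := by
    intro p hp
    have hp0 : 0 < p := (hP p hp).pos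
    simp only [hR, dif_pos hp0]
    rw [res, Set.ncard_eq_toFinset_card _ (res_finite A hp0)]
  have hfin : ∀ T, a₀ ≤ T → factor A h P * (∑ n ∈ range (T + 1), (reps A h n : ℝ) * ρ ^ n) ^ 2 ≤
      (M : ℝ) / (1 - ρ ^ M) * ∑' n : ℕ, (reps A h n : ℝ) ^ 2 * ρ ^ n := by
    intro T hT
    have hne : (FT A T).Nonempty := ⟨a₀, mem_FT.2 ⟨hT, ha₀⟩⟩
    have h2 := fin_ineq hne (FT_sub A T) h hh R P (fun p hp => ⟨hP p hp, fun n hn => by
        have hp0 : 0 < p := (hP p hp).pos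
        simp only [hR, dif_pos hp0]
        rw [Set.Finite.mem_toFinset]
        exact ⟨n, (mem_FT.1 hn).2, rfl⟩, by
        rw [hRc p hp]
        exact res_le A (hP p hp).pos⟩) h0 h1
    have h3 : ∏ p ∈ P, loc h p (R p).card = factor A h P :=
      Finset.prod_congr rfl fun p hp => by rw [hRc p hp]; rfl
    rw [h3, ← hM] at h2
    have h4 : (∑ n ∈ range (T + 1), (reps A h n : ℝ) * ρ ^ n) ^ 2 ≤
        (∑ a ∈ FT A T, ρ ^ a) ^ (2 * h) := by
      rw [mul_comm 2 h, pow_mul]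
      exact pow_le_pow_left₀ (Finset.sum_nonneg fun n _ => by positivity) (le_gen A T h hh h0.le) 2
    refine (mul_le_mul_of_nonneg_left h4 hfac.le).trans (h2.trans ?_)
    apply mul_le_mul_of_nonneg_left _ hcoef
    refine le_trans (Finset.sum_le_sum (g := fun n => (reps A h n : ℝ) ^ 2 * ρ ^ n) fun n _ => ?_)
      (hsq.sum_le_tsum _ fun n _ => by positivity)
    apply mul_le_mul_of_nonneg_right _ (by positivity)
    apply pow_le_pow_left₀ (Nat.cast_nonneg _)
    exact_mod_cast RF_le_reps (fun _ ha => (mem_FT.1 ha).2) h n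
  have hlim : Tendsto (fun T : ℕ => factor A h P *
      (∑ n ∈ range (T + 1), (reps A h n : ℝ) * ρ ^ n) ^ 2) atTop
      (𝓝 (factor A h P * (∑' n : ℕ, (reps A h n : ℝ) * ρ ^ n) ^ 2)) := by
    apply Tendsto.const_mul
    apply Tendsto.pow
    exact (tendsto_add_atTop_iff_nat (f := fun T : ℕ => ∑ n ∈ range T, (reps A h n : ℝ) * ρ ^ n)
      1).2 (summable_reps A h h0.le h1).hasSum.tendsto_sum_nat
  refine le_of_tendsto hlim ?_
  filter_upwards [eventually_ge_atTop a₀] with T hT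
  exact hfin T hT

/-- the factor coming from the length of the period -/
noncomputable def ef (M : ℕ) (ρ : ℝ) : ℝ := (M : ℝ) * (1 - ρ) / (1 - ρ ^ M)

/-- **The inequality for the Abel means.** -/
theorem main_mean (A : Set ℕ) (h : ℕ) (hh : 1 ≤ h) (P : Finset ℕ) (hP : ∀ p ∈ P, p.Prime) {ρ : ℝ}
    (h0 : 0 < ρ) (h1 : ρ < 1) :
    factor A h P * mean (fun n => (reps A h n : ℝ)) ρ ^ 2 ≤
      ef (∏ p ∈ P, p) ρ * mean (fun n => (reps A h n : ℝ) ^ 2) ρ := by
  have h2 := main_sum A h hh P hP h0 h1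
  have h3 : 0 < 1 - ρ := by linarith
  have h4 := mul_le_mul_of_nonneg_left h2 (by positivity : 0 ≤ (1 - ρ) ^ 2)
  unfold mean ef
  calc factor A h P * ((1 - ρ) * ∑' n : ℕ, (reps A h n : ℝ) * ρ ^ n) ^ 2
      = (1 - ρ) ^ 2 * (factor A h P * (∑' n : ℕ, (reps A h n : ℝ) * ρ ^ n) ^ 2) := by ring
    _ ≤ _ := h4
    _ = _ := by ring

theorem tendsto_ef (M : ℕ) (hM : 0 < M) : Tendsto (ef M) (𝓝[<] 1) (𝓝 1) := by
  have h1 := lim_rhs M hM 1 0
  refine h1.congr fun ρ => ?_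
  unfold ef
  ring

end Pool.Agent.Q50.ETP
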