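import Mathlib
import Pool.Agent.Q50.ETP.Inf

/-!
# Order `h`: consequences of the product inequality
-/

set_option autoImplicit false

open Finset Filter Topology

namespace Pool.Agent.Q50.ETP

open Pool.Agent.Helper112 Pool.Agent.TH314.ET Pool.Agent.TH314.ETH

theorem ev_Ioo : ∀ᶠ ρ : ℝ in 𝓝[<] 1, 0 < ρ ∧ ρ < 1 := by
  have h1 : ∀ᶠ ρ : ℝ in 𝓝[<] 1, ρ ∈ Set.Ioo (0 : ℝ) 1 := Ioo_mem_nhdsLT (by norm_num)
  exact h1

theorem mean_nonneg {f : ℕ → ℝ} (hf : ∀ n, 0 ≤ f n) {ρ : ℝ} (h0 : 0 ≤ ρ) (h1 : ρ ≤ 1) :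
    0 ≤ mean f ρ :=
  mul_nonneg (by linarith) (tsum_nonneg fun n => mul_nonneg (hf n) (by positivity))

/-- mean square version -/
theorem sq_version (A : Set ℕ) (h : ℕ) (hh : 1 ≤ h) (P : Finset ℕ) (hP : ∀ p ∈ P, p.Prime)
    (B m : ℝ) (hm0 : 0 ≤ m) (hB : ∀ᶠ ρ in 𝓝[<] (1 : ℝ), mean (fun n => (reps A h n : ℝ) ^ 2) ρ ≤ B)
    (hm : ∃ᶠ ρ in 𝓝[<] (1 : ℝ), m ≤ mean (fun n => (reps A h n : ℝ)) ρ) :
    m ^ 2 * factor A h P ≤ B := by
  set M := ∏ p ∈ P, p with hM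
  have hM0 : 0 < M := Finset.prod_pos fun p hp => (hP p hp).pos
  have hG := factor_pos A h P hP
  by_contra hcon
  push Not at hcon
  have hlim : Tendsto (fun ρ => ef M ρ * B) (𝓝[<] 1) (𝓝 (1 * B)) := (tendsto_ef M hM0).mul_const B
  rw [one_mul] at hlim
  obtain ⟨ρ, h2, ⟨h3, h4⟩, h5, h6⟩ :=
    (hm.and_eventually ((hlim.eventually_lt_const hcon).and hB |>.and ev_Ioo)).exists
  have h7 := main_mean A h hh P hP h5 h6
  rw [← hM] at h7
  have he : 0 ≤ ef M ρ := by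
    unfold ef
    have : ρ ^ M < 1 := pow_lt_one₀ h5.le h6 hM0.ne'
    apply div_nonneg (mul_nonneg (Nat.cast_nonneg _) (by linarith)) (by linarith)
  have h8 : m ^ 2 ≤ mean (fun n => (reps A h n : ℝ)) ρ ^ 2 := pow_le_pow_left₀ hm0 h2 2
  have h9 : factor A h P * m ^ 2 ≤ ef M ρ * B :=
    (mul_le_mul_of_nonneg_left h8 hG.le).trans (h7.trans (mul_le_mul_of_nonneg_left h4 he))
  linarith

/-- the mean square of an eventually bounded representation function -/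
theorem mean_sq_le (A : Set ℕ) (h : ℕ) (K : ℝ) (hK0 : 0 ≤ K) (n₁ : ℕ)
    (hK : ∀ n, n₁ ≤ n → (reps A h n : ℝ) ≤ K) {ρ : ℝ} (h0 : 0 < ρ) (h1 : ρ < 1) :
    mean (fun n => (reps A h n : ℝ) ^ 2) ρ ≤ K * mean (fun n => (reps A h n : ℝ)) ρ +
      (1 - ρ) * ∑ n ∈ range n₁, (reps A h n : ℝ) ^ 2 := by
  classical
  have hρ : 0 < 1 - ρ := by linarith
  have hs1 := (summable_reps A h h0.le h1).mul_left K
  have hs2 := summable_pow_reps A h 2 h0.le h1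
  set u : ℕ → ℝ := fun n => if n ∈ range n₁ then (reps A h n : ℝ) ^ 2 else 0 with hu
  have hsu : Summable u := summable_of_ne_finset_zero (s := range n₁) (fun n hn => if_neg hn)
  have h2 : ∑' n, u n = ∑ n ∈ range n₁, (reps A h n : ℝ) ^ 2 := by
    rw [tsum_eq_sum (s := range n₁) (fun n hn => if_neg hn)]
    exact Finset.sum_congr rfl fun n hn => if_pos hn
  have h3 : ∑' n : ℕ, (reps A h n : ℝ) ^ 2 * ρ ^ n ≤
      ∑' n : ℕ, (K * ((reps A h n : ℝ) * ρ ^ n) + u n) := by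
    refine hs2.tsum_le_tsum (fun n => ?_) (hs1.add hsu)
    have hρn : ρ ^ n ≤ 1 := pow_le_one₀ h0.le h1.le
    have hρ0 : 0 ≤ ρ ^ n := by positivity
    have hr0 : (0 : ℝ) ≤ reps A h n := Nat.cast_nonneg _
    simp only [hu]
    by_cases h4 : n < n₁
    · rw [if_pos (mem_range.2 h4)]
      have : 0 ≤ K * ((reps A h n : ℝ) * ρ ^ n) := by positivity
      nlinarith [sq_nonneg (reps A h n : ℝ)]
    · rw [if_neg (fun h => h4 (mem_range.1 h)), add_zero, sq, mul_assoc]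
      exact mul_le_mul_of_nonneg_right (hK n (by omega)) (by positivity)
  rw [hs1.tsum_add hsu, tsum_mul_left, h2] at h3
  unfold mean
  calc (1 - ρ) * ∑' n : ℕ, (reps A h n : ℝ) ^ 2 * ρ ^ n
      ≤ (1 - ρ) * (K * ∑' n : ℕ, (reps A h n : ℝ) * ρ ^ n +
          ∑ n ∈ range n₁, (reps A h n : ℝ) ^ 2) := mul_le_mul_of_nonneg_left h3 hρ.le
    _ = _ := by ring

/-- bounded version, with the sharp constant -/
theorem bounded_version (A : Set ℕ) (h : ℕ) (hh : 1 ≤ h) (P : Finset ℕ) (hP : ∀ p ∈ P, p.Prime)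
    (K m : ℝ) (hK : ∀ᶠ n : ℕ in atTop, (reps A h n : ℝ) ≤ K)
    (hm : ∃ᶠ ρ in 𝓝[<] (1 : ℝ), m ≤ mean (fun n => (reps A h n : ℝ)) ρ) :
    m * factor A h P ≤ K := by
  obtain ⟨n₁, hn₁⟩ := eventually_atTop.1 hK
  have hK0 : 0 ≤ K := (Nat.cast_nonneg _).trans (hn₁ n₁ le_rfl)
  have hG := factor_pos A h P hP
  rcases le_or_gt m 0 with hm0 | hm0
  · exact (mul_nonpos_of_nonpos_of_nonneg hm0 hG.le).trans hK0
  set M := ∏ p ∈ P, p with hM
  have hM0 : 0 < M := Finset.prod_pos fun p hp => (hP p hp).pos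
  set C := ∑ n ∈ range n₁, (reps A h n : ℝ) ^ 2 with hC
  have hC0 : 0 ≤ C := Finset.sum_nonneg fun n _ => by positivity
  by_contra hcon
  push Not at hcon
  have hlim : Tendsto (fun ρ => ef M ρ * (K + (1 - ρ) * (C / m))) (𝓝[<] 1)
      (𝓝 (1 * (K + (1 - 1) * (C / m)))) := by
    apply (tendsto_ef M hM0).mul
    exact ((by fun_prop : Continuous fun ρ : ℝ => K + (1 - ρ) * (C / m)).tendsto 1).mono_left
      nhdsWithin_le_nhds
  rw [one_mul, sub_self, zero_mul, add_zero] at hlim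
  obtain ⟨ρ, h2, h3, h5, h6⟩ :=
    (hm.and_eventually ((hlim.eventually_lt_const hcon).and ev_Ioo)).exists
  have h7 := main_mean A h hh P hP h5 h6
  have h8 := mean_sq_le A h K hK0 n₁ hn₁ h5 h6
  rw [← hM] at h7
  rw [← hC] at h8
  set lam := mean (fun n => (reps A h n : ℝ)) ρ with hlam
  have hlam0 : 0 < lam := hm0.trans_le h2
  have he : 0 ≤ ef M ρ := by
    unfold ef
    have : ρ ^ M < 1 := pow_lt_one₀ h5.le h6 hM0.ne'
    apply div_nonneg (mul_nonneg (Nat.cast_nonneg _) (by linarith)) (by linarith)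
  have hρ1 : 0 ≤ 1 - ρ := by linarith
  have h9 : (1 - ρ) * C ≤ lam * ((1 - ρ) * (C / m)) := by
    have : (1 - ρ) * C = m * ((1 - ρ) * (C / m)) := by field_simp
    rw [this]
    exact mul_le_mul_of_nonneg_right h2 (by positivity)
  have h10 : lam * (factor A h P * lam) ≤ lam * (ef M ρ * (K + (1 - ρ) * (C / m))) := by
    calc lam * (factor A h P * lam) = factor A h P * lam ^ 2 := by ring
      _ ≤ _ := h7
      _ ≤ ef M ρ * (K * lam + lam * ((1 - ρ) * (C / m))) :=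
        mul_le_mul_of_nonneg_left (by linarith) he
      _ = _ := by ring
  have h11 := le_of_mul_le_mul_left h10 hlam0
  have h12 : factor A h P * m ≤ factor A h P * lam := mul_le_mul_of_nonneg_left h2 hG.le
  linarith

/-- lower bound of the Abel mean if `f ≥ l` eventually -/
theorem mean_ge (A : Set ℕ) (h l n₀ : ℕ) (hA : ∀ n, n₀ ≤ n → l ≤ reps A h n) {ρ : ℝ} (h0 : 0 ≤ ρ)
    (h1 : ρ < 1) : l * ρ ^ n₀ ≤ mean (fun n => (reps A h n : ℝ)) ρ := by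
  have hs := summable_reps A h h0 h1
  have hs' : Summable fun j : ℕ => (reps A h (j + n₀) : ℝ) * ρ ^ (j + n₀) :=
    (summable_nat_add_iff (f := fun n : ℕ => (reps A h n : ℝ) * ρ ^ n) n₀).2 hs
  have h2 := hs.sum_add_tsum_nat_add n₀
  have h3 : 0 ≤ ∑ i ∈ Finset.range n₀, (reps A h i : ℝ) * ρ ^ i :=
    Finset.sum_nonneg fun _ _ => by positivity
  have hg : HasSum (fun j : ℕ => (l : ℝ) * ρ ^ n₀ * ρ ^ j) ((l : ℝ) * ρ ^ n₀ * (1 - ρ)⁻¹) :=
    (hasSum_geometric_of_lt_one h0 h1).mul_left _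
  have h4 : (l : ℝ) * ρ ^ n₀ * (1 - ρ)⁻¹ ≤ ∑' j : ℕ, (reps A h (j + n₀) : ℝ) * ρ ^ (j + n₀) := by
    rw [← hg.tsum_eq]
    refine hg.summable.tsum_le_tsum (fun j => ?_) hs'
    have e1 : (l : ℝ) ≤ reps A h (j + n₀) := by exact_mod_cast hA (j + n₀) (by omega)
    calc (l : ℝ) * ρ ^ n₀ * ρ ^ j = l * ρ ^ (j + n₀) := by rw [pow_add]; ring
      _ ≤ _ := mul_le_mul_of_nonneg_right e1 (by positivity)
  have h5 : 0 < 1 - ρ := by linarith
  have h6 : (l : ℝ) * ρ ^ n₀ * (1 - ρ)⁻¹ ≤ ∑' n : ℕ, (reps A h n : ℝ) * ρ ^ n := by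
    rw [← h2]
    linarith
  calc (l : ℝ) * ρ ^ n₀ = (1 - ρ) * (l * ρ ^ n₀ * (1 - ρ)⁻¹) := by field_simp
    _ ≤ _ := mul_le_mul_of_nonneg_left h6 h5.le

theorem ev_mean_gt (A : Set ℕ) (h l : ℕ) (hA : ∀ᶠ n : ℕ in atTop, l ≤ reps A h n) {m : ℝ}
    (hm : m < l) : ∀ᶠ ρ : ℝ in 𝓝[<] 1, m ≤ mean (fun n => (reps A h n : ℝ)) ρ := by
  obtain ⟨n₀, hn₀⟩ := eventually_atTop.1 hA
  have h2 : Tendsto (fun ρ : ℝ => (l : ℝ) * ρ ^ n₀) (𝓝[<] 1) (𝓝 ((l : ℝ) * 1 ^ n₀)) :=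
    ((by fun_prop : Continuous fun ρ : ℝ => (l : ℝ) * ρ ^ n₀).tendsto 1).mono_left
      nhdsWithin_le_nhds
  rw [one_pow, mul_one] at h2
  filter_upwards [h2.eventually (eventually_gt_nhds hm), ev_Ioo] with ρ h4 h5
  exact h4.le.trans (mean_ge A h l n₀ hn₀ h5.1.le h5.2)

/-- the product formula for `liminf` and `limsup` -/
theorem liminf_version (A : Set ℕ) (h : ℕ) (hh : 1 ≤ h) (P : Finset ℕ) (hP : ∀ p ∈ P, p.Prime)
    (l : ℕ) (hl : ∀ᶠ n : ℕ in atTop, l ≤ reps A h n) :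
    ∃ᶠ n : ℕ in atTop, l * factor A h P ≤ (reps A h n : ℝ) := by
  rcases Nat.eq_zero_or_pos l with rfl | hpos
  · refine (Eventually.of_forall fun n => ?_).frequently
    simp
  by_contra hcon
  rw [not_frequently] at hcon
  obtain ⟨n₁, hn₁⟩ := eventually_atTop.1 hcon
  have hF := factor_pos A h P hP
  have hh0 : (0 : ℝ) < l := by exact_mod_cast hpos
  set G := (l : ℝ) * factor A h P with hG
  have hGpos : 0 < G := mul_pos hh0 hF
  set k : ℕ := ⌈G⌉₊ - 1 with hk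
  have hc1 : 1 ≤ ⌈G⌉₊ := Nat.one_le_ceil_iff.2 hGpos
  have hkG : (k : ℝ) < G := by
    have h1 : k < ⌈G⌉₊ := by omega
    exact Nat.lt_ceil.1 h1
  have hK : ∀ᶠ n : ℕ in atTop, (reps A h n : ℝ) ≤ k := by
    filter_upwards [eventually_ge_atTop n₁] with n hn
    have h1 := hn₁ n hn
    push Not at h1
    have h2 : reps A h n < ⌈G⌉₊ := Nat.lt_ceil.2 h1
    exact_mod_cast (by omega : reps A h n ≤ k)
  have hkG' : (k : ℝ) / factor A h P < l := by rwa [div_lt_iff₀ hF]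
  obtain ⟨m, hm1, hm2⟩ := exists_between hkG'
  have h2 := bounded_version A h hh P hP k m hK (ev_mean_gt A h l hl hm2).frequently
  have h3 : (k : ℝ) < m * factor A h P := by rwa [div_lt_iff₀ hF] at hm1
  linarith

end Pool.Agent.Q50.ETP
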