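import Mathlib
import Pool.Agent.Q50.ETP.Cons

/-!
# Order `h`: unboundedness
-/

set_option autoImplicit false

open Finset Filter Topology

namespace Pool.Agent.Q50.ETP

open Pool.Agent.Helper112 Pool.Agent.TH314.ET Pool.Agent.TH314.ETH

theorem abel_of_sum (a : ℕ → ℝ) (ha : ∀ n, 0 ≤ a n) (B C : ℝ)
    (hS : ∀ n : ℕ, ∑ k ∈ range (n + 1), a k ≤ B * n + C) {ρ : ℝ} (h0 : 0 < ρ) (h1 : ρ < 1)
    (hs : Summable fun n => a n * ρ ^ n) : mean a ρ ≤ B * ρ + C * (1 - ρ) := by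
  have hg : Summable fun n : ℕ => ρ ^ n := summable_geometric_of_lt_one h0.le h1
  have hn1 : Summable fun n : ℕ => ‖a n * ρ ^ n‖ := by
    refine hs.congr fun n => ?_
    rw [Real.norm_eq_abs, abs_of_nonneg (mul_nonneg (ha n) (by positivity))]
  have hn2 : Summable fun n : ℕ => ‖ρ ^ n‖ := by
    refine hg.congr fun n => ?_
    rw [Real.norm_eq_abs, abs_of_nonneg (by positivity)]
  have h2 := tsum_mul_tsum_eq_tsum_sum_range_of_summable_norm hn1 hn2
  have hsum := summable_norm_sum_mul_range_of_summable_norm hn1 hn2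
  have h3 : ∀ n : ℕ, ∑ k ∈ range (n + 1), a k * ρ ^ k * ρ ^ (n - k) =
      (∑ k ∈ range (n + 1), a k) * ρ ^ n := by
    intro n
    rw [Finset.sum_mul]
    refine Finset.sum_congr rfl fun k hk => ?_
    rw [mem_range] at hk
    rw [mul_assoc, ← pow_add, Nat.add_sub_of_le (by omega)]
  simp_rw [h3] at h2 hsum
  rw [tsum_geometric_of_lt_one h0.le h1] at h2
  have hρ : 0 < 1 - ρ := by linarith
  have hA1 : HasSum (fun n : ℕ => (n : ℝ) * ρ ^ n) (ρ / (1 - ρ) ^ 2) :=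
    hasSum_coe_mul_geometric_of_norm_lt_one (by
      rw [Real.norm_eq_abs, abs_of_nonneg h0.le]; exact h1)
  have hA2 : HasSum (fun n : ℕ => B * ((n : ℝ) * ρ ^ n) + C * ρ ^ n)
      (B * (ρ / (1 - ρ) ^ 2) + C * (1 - ρ)⁻¹) :=
    (hA1.mul_left B).add ((hasSum_geometric_of_lt_one h0.le h1).mul_left C)
  have h4 : ∑' n : ℕ, (∑ k ∈ range (n + 1), a k) * ρ ^ n ≤
      B * (ρ / (1 - ρ) ^ 2) + C * (1 - ρ)⁻¹ := by
    rw [← hA2.tsum_eq]
    refine hsum.of_norm.tsum_le_tsum (fun n => ?_) hA2.summable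
    calc (∑ k ∈ range (n + 1), a k) * ρ ^ n ≤ (B * n + C) * ρ ^ n :=
          mul_le_mul_of_nonneg_right (hS n) (by positivity)
      _ = _ := by ring
  rw [← h2] at h4
  have h5 : mean a ρ = (1 - ρ) ^ 2 * ((∑' n : ℕ, a n * ρ ^ n) * (1 - ρ)⁻¹) := by
    unfold mean
    field_simp
  rw [h5]
  calc (1 - ρ) ^ 2 * ((∑' n : ℕ, a n * ρ ^ n) * (1 - ρ)⁻¹)
      ≤ (1 - ρ) ^ 2 * (B * (ρ / (1 - ρ) ^ 2) + C * (1 - ρ)⁻¹) :=
        mul_le_mul_of_nonneg_left h4 (by positivity)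
    _ = _ := by
        field_simp

/-- a representation function which is bounded in mean square has a bounded Abel mean square -/
theorem abel_meanSq (A : Set ℕ) (h : ℕ) (hr : MeanSq A h) :
    ∃ B : ℝ, ∀ᶠ ρ : ℝ in 𝓝[<] 1, mean (fun n => (reps A h n : ℝ) ^ 2) ρ ≤ B := by
  obtain ⟨B, hB⟩ := hr
  obtain ⟨N₁, hN₁⟩ := eventually_atTop.1 hB
  set H : ℝ := ((h : ℝ) ^ h) ^ 2 with hH
  have hH0 : 0 ≤ H := by positivity
  set C : ℝ := ∑ k ∈ range N₁, (reps A h k : ℝ) ^ 2 with hC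
  have hC0 : 0 ≤ C := Finset.sum_nonneg fun n _ => by positivity
  set D : ℝ := H * |B| with hD
  have hD0 : 0 ≤ D := by positivity
  have hle : ∀ n, (reps A h n : ℝ) ^ 2 ≤ H * (Pool.Agent.TH314.ETH.rep A h n : ℝ) ^ 2 := by
    intro n
    have h1 : (reps A h n : ℝ) ≤ (h : ℝ) ^ h * Pool.Agent.TH314.ETH.rep A h n := by
      exact_mod_cast reps_le_rep A h n
    rw [hH, ← mul_pow]
    exact pow_le_pow_left₀ (Nat.cast_nonneg _) h1 2
  have hS : ∀ n : ℕ, ∑ k ∈ range (n + 1), (reps A h k : ℝ) ^ 2 ≤ D * n + (C + D) := by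
    intro n
    have hn0 : (0 : ℝ) ≤ n := Nat.cast_nonneg _
    rcases le_or_gt N₁ (n + 1) with h1 | h1
    · have h2 := hN₁ (n + 1) h1
      have h3 : ∑ k ∈ range (n + 1), (reps A h k : ℝ) ^ 2 ≤
          H * ∑ k ∈ range (n + 1), (Pool.Agent.TH314.ETH.rep A h k : ℝ) ^ 2 := by
        rw [Finset.mul_sum]
        exact Finset.sum_le_sum fun k _ => hle k
      have h4 : H * ∑ k ∈ range (n + 1), (Pool.Agent.TH314.ETH.rep A h k : ℝ) ^ 2 ≤
          H * (|B| * ((n + 1 : ℕ) : ℝ)) :=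
        mul_le_mul_of_nonneg_left (h2.trans (mul_le_mul_of_nonneg_right (le_abs_self B)
          (Nat.cast_nonneg _))) hH0
      push_cast at h4
      have h5 : H * (|B| * ((n : ℝ) + 1)) = D * n + D := by rw [hD]; ring
      linarith
    · have h2 : ∑ k ∈ range (n + 1), (reps A h k : ℝ) ^ 2 ≤ C :=
        Finset.sum_le_sum_of_subset_of_nonneg (by
          intro k hk
          rw [mem_range] at hk ⊢
          omega) fun _ _ _ => by positivity
      have h3 : 0 ≤ D * n := by positivity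
      linarith
  refine ⟨D + (C + D), ?_⟩
  filter_upwards [ev_Ioo] with ρ hρ
  have h1 := abel_of_sum (fun n => (reps A h n : ℝ) ^ 2) (fun n => by positivity) D (C + D) hS
    hρ.1 hρ.2 (summable_pow_reps A h 2 hρ.1.le hρ.2)
  have h2 : D * ρ ≤ D := by nlinarith [hρ.1, hρ.2]
  have h3 : (C + D) * (1 - ρ) ≤ C + D := by nlinarith [hρ.1, hρ.2]
  linarith

/-- the Abel mean of the representation function of a thick set -/
theorem mean_thick (A : Set ℕ) (h : ℕ) (hT : Thick A h) :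
    ∃ m : ℝ, 0 < m ∧ ∃ᶠ ρ : ℝ in 𝓝[<] 1, m ≤ mean (fun n => (reps A h n : ℝ)) ρ := by
  classical
  obtain ⟨c, hc, hfr⟩ := hT
  refine ⟨c / 2 * Real.exp (-(h : ℝ)), by positivity, ?_⟩
  have hlim : Tendsto (fun N : ℕ => (N : ℝ) / (N + 1)) atTop (𝓝[<] 1) := by
    rw [tendsto_nhdsWithin_iff]
    refine ⟨tendsto_natCast_div_add_atTop (1 : ℝ), Eventually.of_forall fun N => ?_⟩
    have : (0 : ℝ) < (N : ℝ) + 1 := by positivity
    show (N : ℝ) / (N + 1) < 1
    rw [div_lt_one this]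
    linarith
  refine hlim.frequently ((hfr.and_eventually (eventually_ge_atTop 1)).mono ?_)
  rintro N ⟨hN, hN1⟩
  have hNr : (1 : ℝ) ≤ N := by exact_mod_cast hN1
  have hN0 : (0 : ℝ) < N := by linarith
  set ρ : ℝ := (N : ℝ) / (N + 1) with hρ
  have hρ0 : 0 < ρ := by positivity
  have hρ1 : ρ < 1 := by
    rw [hρ, div_lt_one (by positivity)]
    linarith
  have h1ρ : 1 - ρ = 1 / ((N : ℝ) + 1) := by
    rw [hρ]
    field_simp
    ring
  have hpow : Real.exp (-1) ≤ ρ ^ N := by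
    have h2 : (ρ ^ N)⁻¹ ≤ Real.exp 1 := by
      have h3 : ρ⁻¹ = 1 / (N : ℝ) + 1 := by
        rw [hρ]
        field_simp
        ring
      rw [← inv_pow, h3]
      calc (1 / (N : ℝ) + 1) ^ N ≤ (Real.exp (1 / (N : ℝ))) ^ N :=
            pow_le_pow_left₀ (by positivity) (Real.add_one_le_exp _) N
        _ = Real.exp 1 := by
            rw [← Real.exp_nat_mul]
            congr 1
            field_simp
    rw [Real.exp_neg]
    rw [inv_le_comm₀ (Real.exp_pos 1) (by positivity)]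
    exact h2
  have hcard : ((A ∩ Set.Icc 1 N).ncard : ℝ) ≤ ((FT A N).card : ℝ) := by
    have : (A ∩ Set.Icc 1 N).ncard ≤ (FT A N).card := by
      rw [← Set.ncard_coe_finset]
      apply Set.ncard_le_ncard _ (Finset.finite_toSet _)
      rintro a ⟨h2, h3⟩
      exact mem_FT.2 ⟨h3.2, h2⟩
    exact_mod_cast this
  have hsum : ((A ∩ Set.Icc 1 N).ncard : ℝ) * Real.exp (-1) ≤ ∑ a ∈ FT A N, ρ ^ a := by
    calc ((A ∩ Set.Icc 1 N).ncard : ℝ) * Real.exp (-1) ≤ ((FT A N).card : ℝ) * ρ ^ N := by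
          apply mul_le_mul hcard hpow (Real.exp_pos _).le (Nat.cast_nonneg _)
      _ = ∑ _a ∈ FT A N, ρ ^ N := by rw [Finset.sum_const, nsmul_eq_mul]
      _ ≤ _ := Finset.sum_le_sum fun a ha =>
          pow_le_pow_of_le_one hρ0.le hρ1.le (mem_FT.1 ha).1
  have hgen := gen_le A N h hρ0.le hρ1
  have h5 : c * N * Real.exp (-(h : ℝ)) ≤ ∑' n : ℕ, (reps A h n : ℝ) * ρ ^ n := by
    refine le_trans ?_ hgen
    refine le_trans ?_ (pow_le_pow_left₀ (by positivity) hsum h)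
    rw [mul_pow, ← Real.exp_nat_mul]
    have : (h : ℝ) * -1 = -(h : ℝ) := by ring
    rw [this]
    exact mul_le_mul_of_nonneg_right hN (Real.exp_pos _).le
  unfold mean
  have h6 : (1 - ρ) * (c * N * Real.exp (-(h : ℝ))) ≤ (1 - ρ) * ∑' n : ℕ, (reps A h n : ℝ) * ρ ^ n :=
    mul_le_mul_of_nonneg_left h5 (by linarith)
  refine le_trans ?_ h6
  rw [h1ρ]
  have h7 : c / 2 ≤ 1 / ((N : ℝ) + 1) * (c * N) := by
    rw [one_div_mul_eq_div, div_le_div_iff₀ (by norm_num) (by positivity)]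
    nlinarith
  calc c / 2 * Real.exp (-(h : ℝ)) ≤ 1 / ((N : ℝ) + 1) * (c * N) * Real.exp (-(h : ℝ)) :=
        mul_le_mul_of_nonneg_right h7 (Real.exp_pos _).le
    _ = _ := by ring

/-- the factors are unbounded if the series of the local terms diverges -/
theorem factor_unbounded (A : Set ℕ) (h : ℕ)
    (hdiv : ¬ Summable fun p : Nat.Primes => term A h p) (L : ℝ) :
    ∃ P : Finset ℕ, (∀ p ∈ P, p.Prime) ∧ L < factor A h P := by
  by_contra hcon
  push Not at hcon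
  apply hdiv
  refine summable_of_sum_le (c := L) (fun p => term_nonneg A h p.2) fun u => ?_
  have h1 : ∀ p ∈ u.map ⟨((↑) : Nat.Primes → ℕ), Subtype.val_injective⟩, p.Prime := by
    intro p hp
    obtain ⟨q, _, rfl⟩ := Finset.mem_map.1 hp
    exact q.2
  have h2 := hcon _ h1
  have h3 := factor_ge A h _ h1
  have h4 : ∑ p ∈ u.map ⟨((↑) : Nat.Primes → ℕ), Subtype.val_injective⟩, term A h p =
      ∑ p ∈ u, term A h p := Finset.sum_map u ⟨((↑) : Nat.Primes → ℕ), Subtype.val_injective⟩ _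
  linarith

/-- **Unboundedness.** -/
theorem not_meanSq (A : Set ℕ) (h : ℕ) (hh : 1 ≤ h)
    (hA : (∀ᶠ n : ℕ in atTop, 1 ≤ Pool.Agent.TH314.ETH.rep A h n) ∨ Thick A h)
    (hdiv : ¬ Summable fun p : Nat.Primes => term A h p) : ¬ MeanSq A h := by
  intro hr
  obtain ⟨B, hB⟩ := abel_meanSq A h hr
  obtain ⟨m, hm0, hm⟩ : ∃ m : ℝ, 0 < m ∧
      ∃ᶠ ρ : ℝ in 𝓝[<] 1, m ≤ mean (fun n => (reps A h n : ℝ)) ρ := by
    rcases hA with hA | hA
    · refine ⟨1 / 2, by norm_num, ?_⟩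
      refine (ev_mean_gt A h 1 (hA.mono fun n hn => hn.trans (rep_le_reps A h n)) ?_).frequently
      norm_num
    · exact mean_thick A h hA
  obtain ⟨P, hP, hL⟩ := factor_unbounded A h hdiv (B / m ^ 2)
  have h1 := sq_version A h hh P hP B m hm0.le hB hm
  rw [div_lt_iff₀ (by positivity)] at hL
  linarith

/-- the size of the local term at a prime with few residue classes -/
theorem term_ge (A : Set ℕ) (hA : A.Nonempty) (h : ℕ) (hh : 1 ≤ h) {p : ℕ} (hp : p.Prime)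
    (C : ℝ) (hC : 0 < C) (h1 : 2 * res A p ≤ p) (h2 : (res A p : ℝ) ^ h ≤ C * (p : ℝ) ^ 2) :
    1 / (2 ^ h * C) * (1 / (p : ℝ)) ≤ term A h p := by
  obtain ⟨k, rfl⟩ : ∃ k, h = k + 1 := ⟨h - 1, by omega⟩
  have hν : 0 < res A p := by
    unfold res
    rw [Set.ncard_pos (res_finite A hp.pos)]
    exact hA.image _
  have hν' : (0 : ℝ) < res A p := by exact_mod_cast hν
  have hp1 : (1 : ℝ) < p := by exact_mod_cast hp.one_lt
  have hp0 : (0 : ℝ) < p := by linarith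
  have h1' : 2 * (res A p : ℝ) ≤ p := by exact_mod_cast h1
  unfold term
  rw [Nat.add_sub_cancel]
  have h3 : (p : ℝ) / (2 * res A p) ≤ ((p : ℝ) - res A p) / res A p := by
    rw [div_le_div_iff₀ (by positivity) hν']
    nlinarith
  have h4 : ((p : ℝ) / (2 * res A p)) ^ (k + 1) ≤ (((p : ℝ) - res A p) / res A p) ^ (k + 1) :=
    pow_le_pow_left₀ (by positivity) h3 _
  have h5 : ((p : ℝ) - 1) ^ k ≤ (p : ℝ) ^ k := pow_le_pow_left₀ (by linarith) (by linarith) k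
  have h6 : (0 : ℝ) < ((p : ℝ) - 1) ^ k := pow_pos (by linarith) k
  have h7 : ((p : ℝ) / (2 * res A p)) ^ (k + 1) / (p : ℝ) ^ k ≤
      (((p : ℝ) - res A p) / res A p) ^ (k + 1) / ((p : ℝ) - 1) ^ k :=
    div_le_div₀ (le_trans (by positivity) h4) h4 h6 h5
  refine le_trans ?_ h7
  have h8 : ((p : ℝ) / (2 * res A p)) ^ (k + 1) / (p : ℝ) ^ k =
      p / (2 ^ (k + 1) * (res A p : ℝ) ^ (k + 1)) := by
    rw [div_pow, mul_pow]
    field_simp
    rw [pow_succ]
  rw [h8, one_div_mul_one_div, div_le_div_iff₀ (by positivity) (by positivity)]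
  calc 1 * (2 ^ (k + 1) * (res A p : ℝ) ^ (k + 1)) ≤ 2 ^ (k + 1) * (C * (p : ℝ) ^ 2) := by
        rw [one_mul]
        exact mul_le_mul_of_nonneg_left h2 (by positivity)
    _ = p * (2 ^ (k + 1) * C * p) := by ring

/-- few residue classes modulo the primes of a set with divergent sum of reciprocals -/
theorem not_summable_term (A : Set ℕ) (hA : A.Nonempty) (h : ℕ) (hh : 1 ≤ h) (S : Set ℕ)
    (hS : ∀ p ∈ S, p.Prime) (hdiv : ¬ Summable fun p : S => 1 / ((p : ℕ) : ℝ)) (C : ℝ)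
    (h1 : ∀ p ∈ S, 2 * res A p ≤ p) (h2 : ∀ p ∈ S, (res A p : ℝ) ^ h ≤ C * (p : ℝ) ^ 2) :
    ¬ Summable fun p : Nat.Primes => term A h p := by
  intro hs
  apply hdiv
  set C' : ℝ := max C 1 with hC'
  have hC0 : 0 < C' := lt_of_lt_of_le one_pos (le_max_right _ _)
  have hinj : Function.Injective (fun p : S => (⟨p, hS p p.2⟩ : Nat.Primes)) := by
    intro a b hab
    exact Subtype.ext (congrArg (fun q : Nat.Primes => (q : ℕ)) hab)
  have h3 := hs.comp_injective hinj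
  have h4 : Summable fun p : S => 1 / (2 ^ h * C') * (1 / ((p : ℕ) : ℝ)) := by
    refine Summable.of_nonneg_of_le (fun p => by positivity) (fun p => ?_) h3
    exact term_ge A hA h hh (hS p p.2) C' hC0 (h1 p p.2) ((h2 p p.2).trans
      (mul_le_mul_of_nonneg_right (le_max_left _ _) (by positivity)))
  have h5 : (1 / (2 ^ h * C') : ℝ) ≠ 0 := by positivity
  exact (summable_mul_left_iff h5).1 h4

end Pool.Agent.Q50.ETP
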